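import Pool.Agent.H913.SGP.Bridge

/-! MP_496a9e_al, Q1: the Sobolev gap `s(V, w)` is bounded uniformly in the Harish-Chandra module `V`
with `Norm(V, w)` nonempty, for every real reductive group `G` (in the sense of Wallach) and every
weight `w`. All definitions are in `Pool.Agent.H913.SGP.Definitions`. -/

open Pool.Agent.H913.SGP

universe u

namespace Pool.Agent.Results.MP_496a9e_al.UniformSobolevGap

/-- For every real reductive group `G`, every orthonormal basis `b` of `𝔨` for an `Ad(K)`-invariant
inner product (which defines the Laplacian `Δ_K`) and every weight `w` there is a number `S ≥ 0` such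
that for every Harish-Chandra module `V` with `Norm(V, w) ≠ ∅`:
`p_max ≲ (p_min)_S`, so `s(V, w) ≤ S`, and moreover `q ≲ p_S` for all `p, q ∈ Norm(V, w)`. -/
theorem result (G : Type) [Group G] [TopologicalSpace G] [IsTopologicalGroup G] [T2Space G]
    [SecondCountableTopology G] (n : ℕ) (GR : Subgroup (Matrix.GeneralLinearGroup (Fin n) ℝ))
    (ρ : G →* Matrix.GeneralLinearGroup (Fin n) ℝ) (hG : IsRealReductive GR ρ) (m : ℕ)
    (b : Fin m → LieAlg GR) (hb : IsInvBasis GR ρ b) (w : G → ℝ) (hw : IsWeight w) :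
    ∃ S : ℝ, 0 ≤ S ∧
      ∀ (V : Type u) [AddCommGroup V] [Module ℂ V] (Mo : HCModule GR ρ V),
        (∃ p, IsNormIn Mo w p) →
        S ∈ gapSet Mo b w ∧ sobolevGap Mo b w ≤ S ∧
        ∃ T : Module.End ℂ V, IsSobolevPow Mo b S T ∧
          ∀ p q : V → ℝ, IsNormIn Mo w p → IsNormIn Mo w q → NormLE q (fun v => p (T v)) :=
  main hG hb hw

end Pool.Agent.Results.MP_496a9e_al.UniformSobolevGap
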